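import Pool.Agent.Helper12.MA.StC
import Pool.Agent.Helper12.MA.Lib

/-!
# Project MA, module MCA: `x` is at the bottom or `y` is at the top
-/

set_option autoImplicit false

namespace Pool.Agent.Helper97.MA

open Pool.Agent.Helper12.MA
open Pool.Agent.Helper51.AJ (IsMinor Planar Apex ExMinor Con Tch)
open Pool.Agent.Helper12.NK (rst Kc add cnt Pcy IsFace Cof plus)

/-- a set with at least 5 elements has two different elements outside three given ones -/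
private theorem two_out {V : Type} [Finite V] (S : Set V) (h5 : 5 ≤ S.ncard) (a b c : V) :
    ∃ w₁ ∈ S, ∃ w₂ ∈ S, w₁ ≠ w₂ ∧ w₁ ≠ a ∧ w₁ ≠ b ∧ w₁ ≠ c ∧ w₂ ≠ a ∧ w₂ ≠ b ∧ w₂ ≠ c := by
  have h3 : ({a, b, c} : Set V).ncard ≤ 3 := by
    have h1 := Set.ncard_insert_le a ({b, c} : Set V)
    have h2 := Set.ncard_insert_le b ({c} : Set V)
    have h0 := Set.ncard_singleton c
    omega
  have hd : S.ncard ≤ (S \ {a, b, c}).ncard + ({a, b, c} : Set V).ncard :=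
    Set.ncard_le_ncard_sdiff_add_ncard S {a, b, c}
  have h2 : 1 < (S \ {a, b, c}).ncard := by omega
  obtain ⟨w₁, h₁, w₂, h₂, hne⟩ := (Set.one_lt_ncard (Set.toFinite _)).1 h2
  simp only [Set.mem_sdiff, Set.mem_insert_iff, Set.mem_singleton_iff, not_or] at h₁ h₂
  exact ⟨w₁, h₁.1, w₂, h₂.1, hne, h₁.2.1, h₁.2.2.1, h₁.2.2.2, h₂.2.1, h₂.2.2.1, h₂.2.2.2⟩

/-- MCA: `x ∈ f3` or `y ∈ f1` -/
theorem hMCA : StBAS → StFNB → StHFA → StCLS → StENT → StMCA := by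
  intro bas fnb hfa cls ent V _ G z v p q r r' f1 f2 f3 f4 X₀ Y₀ x y e
  by_contra hcon
  simp only [not_or] at hcon
  obtain ⟨hx3, hy1⟩ := hcon
  have cf := e.cf
  have hC := cls V G z v p q r r' f1 f2 f3 f4 cf
  have hH := hfa V G z v p q r r' f1 f2 f3 f4 cf
  have hB := bas V G cf.bh
  obtain ⟨w₁, hw₁, w₂, hw₂, hne, hw₁z, hw₁x, hw₁y, hw₂z, hw₂x, hw₂y⟩ :=
    two_out {a | G.Adj v a} (hB.2.2.2.1 v) z x y
  obtain ⟨σ, b, Y, hcut⟩ := e.cX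
  have hYY : Y₀ ⊆ Y := (e.mX σ b X₀ Y hcut).2
  have hyY : y ∈ Y := hYY e.yY
  have hxQ : x ∉ ({v, z, σ, b} : Set V) := by
    have h : x ∈ X₀ ∪ Y := Or.inl e.xX
    rw [hcut.sep.cov] at h
    exact h
  have hyQ : y ∉ ({v, z, σ, b} : Set V) := by
    have h : y ∈ X₀ ∪ Y := Or.inr hyY
    rw [hcut.sep.cov] at h
    exact h
  have hxz : x ≠ z := fun h => hxQ (by simp [h])
  have hyz : y ≠ z := fun h => hyQ (by simp [h])
  have hxy : x ≠ y := fun h => Set.disjoint_left.1 hcut.sep.dis e.xX (h ▸ hyY)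
  have hnadj : ¬ G.Adj x y := fun h => e.xp (hcut.sep.only x e.xX y hyY h).1
  have key : ∀ w, G.Adj v w → w ≠ z → w ≠ x → w ≠ y → ∃ F, TH G z v w F := by
    intro w hw hwz hwx hwy
    rcases ent V G z v p q r r' f1 f2 f3 f4 X₀ Y₀ x y e w hw hwz hwx hwy with
      h | h | ⟨F, h⟩ | h | h | ⟨t, b, X, Y, Γ, h⟩ | ⟨σ, t, X, Y, Γ, h⟩
    · exact ⟨_, h.1⟩
    · exact ⟨_, h.1⟩
    · exact ⟨_, h.1⟩
    · exact absurd h.2.1 hy1
    · exact absurd h.2.1 hx3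
    · exact absurd h.2.2.1 hx3
    · exact absurd h.2.2.1 hy1
  obtain ⟨F₁, h₁⟩ := key w₁ hw₁ hw₁z hw₁x hw₁y
  obtain ⟨F₂, h₂⟩ := key w₂ hw₂ hw₂z hw₂x hw₂y
  have mx : ∀ w F, TH G z v w F → w ≠ x → x ∈ F := fun w F h hw =>
    h.2 ⟨e.vx, by simp [hxz, hw.symm]⟩
  have my : ∀ w F, TH G z v w F → w ≠ y → y ∈ F := fun w F h hw =>
    h.2 ⟨e.vy, by simp [hyz, hw.symm]⟩
  have hF : F₁ = F₂ := (fnb V G {z, v}ᶜ hH.1).2.2.2.1 F₁ F₂ h₁.1 h₂.1 x y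
    (mx w₁ F₁ h₁ hw₁x) (my w₁ F₁ h₁ hw₁y) (mx w₂ F₂ h₂ hw₂x) (my w₂ F₂ h₂ hw₂y) hxy hnadj
  refine hC.2.1 F₁ h₁.1 ?_
  intro a ha
  by_cases haw : a = w₁
  · rw [hF]
    refine h₂.2 ⟨ha.1, ?_⟩
    simp [haw, hne, hw₁z]
  · refine h₁.2 ⟨ha.1, ?_⟩
    have : a ≠ z := fun h => ha.2 (by simp [h])
    simp [this, haw]

end Pool.Agent.Helper97.MA
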